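import Pool.Agent.Lib.MP_b1c185_co.Count2

/-!
For almost all permutation matrices in every dimension, the normalized extremal function converges.
-/

namespace Pool.Agent.Results.MP_b1c185_co.AlmostAllPermutations

open Filter Topology Pool.Agent.Lib.MPb1c185

theorem conv_of_not_bad {d k : ℕ} (hk : 1 ≤ k) {σ : Fin (d + 1) → Equiv.Perm (Fin k)}
    (h2 : ¬ Bad 2 σ) (h3 : ¬ Bad 3 σ) :
    ∃ L : ℝ, Tendsto (fun n : ℕ => (exMinor n (ofPerms σ) : ℝ) / (n : ℝ) ^ d) atTop (𝓝 L) := by
  have hone : ∃ p, ofPerms σ p = true :=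
    ⟨fun l => σ l ⟨0, hk⟩, ofPerms_eq_true.2 ⟨_, fun _ => rfl⟩⟩
  have hQ : (pts (ofPerms σ)).Nonempty := by
    obtain ⟨p, hp⟩ := hone
    exact ⟨_, mem_pts.2 ⟨p, hp, rfl⟩⟩
  apply conv_transfer _ hone
  exact conv_of_indec hQ (s := 2) (t := 3) le_rfl (by norm_num) two_three
    (fun b hb => (mem_latin.1 hb).1) (card_latin d (by norm_num))
    (fun b hb => (mem_latin.1 hb).1) (card_latin d (by norm_num))
    (indec_of_not_bad h2) (indec_of_not_bad h3)

/-- For every dimension `d + 1` there is a constant `C` such that for every `k ≥ 1` at least the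
proportion `1 - C / k` of the permutation matrices `P` of size `k` has the property that
`m(n, P, d + 1) / n ^ d` converges. -/
theorem result (d : ℕ) : ∃ C : ℝ, ∀ k : ℕ, 1 ≤ k → 1 - C / (k : ℝ) ≤
      (Nat.card {P : Mat (d + 1) (fun _ => k) // IsPermMat P ∧
        ∃ L : ℝ, Tendsto (fun n : ℕ => (exMinor n P : ℝ) / (n : ℝ) ^ d) atTop (𝓝 L)} : ℝ) /
      (Nat.card {P : Mat (d + 1) (fun _ => k) // IsPermMat P} : ℝ) := by
  classical
  obtain ⟨K2, hK2⟩ := bad_bound (d + 1) (s := 2) le_rfl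
  obtain ⟨K3, hK3⟩ := bad_bound (d + 1) (s := 3) (by norm_num)
  refine ⟨K2 + K3, fun k hk => ?_⟩
  let PM : Finset (Mat (d + 1) (fun _ => k)) := Finset.univ.filter (fun P => IsPermMat P)
  let Cv : Mat (d + 1) (fun _ => k) → Prop := fun P =>
    ∃ L : ℝ, Tendsto (fun n : ℕ => (exMinor n P : ℝ) / (n : ℝ) ^ d) atTop (𝓝 L)
  have hPM : Nat.card {P : Mat (d + 1) (fun _ => k) // IsPermMat P} = PM.card := by
    rw [Nat.card_eq_fintype_card, Fintype.card_subtype]
  have hgood : Nat.card {P : Mat (d + 1) (fun _ => k) // IsPermMat P ∧ Cv P} =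
      (PM.filter Cv).card := by
    rw [Nat.card_eq_fintype_card, Fintype.card_subtype, Finset.filter_filter]
  have hsplit : (PM.filter Cv).card + (PM.filter (fun P => ¬ Cv P)).card = PM.card :=
    Finset.card_filter_add_card_filter_not _
  have hfib : ∀ P ∈ PM, (Finset.univ.filter (fun σ : Fin (d + 1) → Equiv.Perm (Fin k) =>
      ofPerms σ = P)).card = Nat.factorial k := by
    intro P hP
    rw [← card_fiber (Finset.mem_filter.1 hP).2, Nat.card_eq_fintype_card, Fintype.card_subtype]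
  have htotal : (Nat.factorial k) ^ (d + 1) = PM.card * Nat.factorial k := by
    have h1 := Finset.card_eq_sum_card_fiberwise (s := (Finset.univ : Finset
      (Fin (d + 1) → Equiv.Perm (Fin k)))) (t := PM) (f := ofPerms)
      (fun σ _ => Finset.mem_coe.2 (Finset.mem_filter.2 ⟨Finset.mem_univ _, isPermMat_ofPerms σ⟩))
    rw [Finset.sum_congr rfl hfib, Finset.sum_const, smul_eq_mul, Finset.card_univ,
      Fintype.card_fun, Fintype.card_perm, Fintype.card_fin, Fintype.card_fin] at h1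
    exact h1
  have hbad : (PM.filter (fun P => ¬ Cv P)).card * Nat.factorial k ≤
      Nat.card {σ : Fin (d + 1) → Equiv.Perm (Fin k) // Bad 2 σ} +
      Nat.card {σ : Fin (d + 1) → Equiv.Perm (Fin k) // Bad 3 σ} := by
    have h1 : (PM.filter (fun P => ¬ Cv P)).card * Nat.factorial k =
        ∑ P ∈ PM.filter (fun P => ¬ Cv P), (Finset.univ.filter
          (fun σ : Fin (d + 1) → Equiv.Perm (Fin k) => ofPerms σ = P)).card := by
      rw [Finset.sum_congr rfl (fun P hP => hfib P (Finset.mem_filter.1 hP).1),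
        Finset.sum_const, smul_eq_mul]
    rw [h1, ← Finset.card_biUnion]
    · rw [Nat.card_eq_fintype_card, Fintype.card_subtype, Nat.card_eq_fintype_card,
        Fintype.card_subtype]
      refine (Finset.card_le_card ?_).trans (Finset.card_union_le _ _)
      intro σ hσ
      obtain ⟨P, hP, hσP⟩ := Finset.mem_biUnion.1 hσ
      have h2 := (Finset.mem_filter.1 hP).2
      rw [← (Finset.mem_filter.1 hσP).2] at h2
      rw [Finset.mem_union, Finset.mem_filter, Finset.mem_filter]
      by_contra hcon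
      push Not at hcon
      exact h2 (conv_of_not_bad hk (hcon.1 (Finset.mem_univ _)) (hcon.2 (Finset.mem_univ _)))
    · intro P _ P' _ hne
      rw [Function.onFun, Finset.disjoint_left]
      intro σ h2 h3
      exact hne ((Finset.mem_filter.1 h2).2.symm.trans (Finset.mem_filter.1 h3).2)
  have hk' : (0 : ℝ) < k := by exact_mod_cast hk
  have hfac : (0 : ℝ) < ((Nat.factorial k : ℕ) : ℝ) := by
    exact_mod_cast Nat.factorial_pos k
  have hPMpos : (0 : ℝ) < (PM.card : ℝ) := by
    have h1 : 0 < PM.card * Nat.factorial k := by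
      rw [← htotal]
      exact pow_pos (Nat.factorial_pos k) _
    exact_mod_cast Nat.pos_of_mul_pos_right h1
  have e1 : (((PM.filter (fun P => ¬ Cv P)).card : ℝ) * ((Nat.factorial k : ℕ) : ℝ)) ≤
      (Nat.card {σ : Fin (d + 1) → Equiv.Perm (Fin k) // Bad 2 σ} : ℝ) +
      (Nat.card {σ : Fin (d + 1) → Equiv.Perm (Fin k) // Bad 3 σ} : ℝ) := by
    exact_mod_cast hbad
  have e2 : (((Nat.factorial k : ℕ) : ℝ)) ^ (d + 1) =
      (PM.card : ℝ) * ((Nat.factorial k : ℕ) : ℝ) := by exact_mod_cast htotal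
  have e3 := hK2 k
  have e4 := hK3 k
  rw [e2] at e3 e4
  have e5 : ((PM.filter (fun P => ¬ Cv P)).card : ℝ) * k ≤ (K2 + K3) * PM.card := by
    have e6 : (((PM.filter (fun P => ¬ Cv P)).card : ℝ) * k) * ((Nat.factorial k : ℕ) : ℝ) ≤
        ((K2 + K3) * PM.card) * ((Nat.factorial k : ℕ) : ℝ) := by
      have e7 := mul_le_mul_of_nonneg_right e1 hk'.le
      nlinarith
    exact le_of_mul_le_mul_right e6 hfac
  have e8 : ((PM.filter Cv).card : ℝ) + ((PM.filter (fun P => ¬ Cv P)).card : ℝ) = PM.card := by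
    exact_mod_cast hsplit
  show 1 - (K2 + K3) / (k : ℝ) ≤
    (Nat.card {P : Mat (d + 1) (fun _ => k) // IsPermMat P ∧ Cv P} : ℝ) / _
  rw [hPM, hgood, le_div_iff₀ hPMpos]
  have e9 : (1 - (K2 + K3) / (k : ℝ)) * PM.card =
      PM.card - ((K2 + K3) * PM.card) / k := by
    field_simp
  rw [e9]
  have e10 : ((PM.filter (fun P => ¬ Cv P)).card : ℝ) ≤ ((K2 + K3) * PM.card) / k := by
    rw [le_div_iff₀ hk']
    exact e5
  linarith

end Pool.Agent.Results.MP_b1c185_co.AlmostAllPermutations
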