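import Pool.Agent.Lib.MP_b1c185_co.Iter

/-!
The exact value of `m(n, P, d)` for a class of patterns in every dimension, in particular for all
patterns whose bounding box has at most one side longer than `3`.
-/

namespace Pool.Agent.Results.MP_b1c185_co.ExactValues

open Filter Topology Pool.Agent.Lib.MPb1c185

/-- `P` is removable with respect to the center `c` and the order `σ 0, σ 1, …` of the directions:
whenever two ones `p`, `q` of `P` lie strictly on the same side of `c` in the direction `σ i` and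
have different indices in this direction, they have equal indices in all later directions. -/
def Removable {d : ℕ} {k : Fin d → ℕ} (P : Mat d k) (c : ∀ l, Fin (k l))
    (σ : Equiv.Perm (Fin d)) : Prop :=
  ∀ p q, P p = true → P q = true → ∀ i : Fin d, p (σ i) ≠ q (σ i) →
    (c (σ i) < p (σ i) ∧ c (σ i) < q (σ i)) ∨ (p (σ i) < c (σ i) ∧ q (σ i) < c (σ i)) →
    ∀ j : Fin d, i < j → p (σ j) = q (σ j)

theorem value {d : ℕ} {k : Fin d → ℕ} (P : Mat d k) (hP : ∃ p, P p = true)
    {c : ∀ l, Fin (k l)} {σ : Equiv.Perm (Fin d)} (h : Removable P c σ) (n : ℕ) :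
    exMinor n P = n ^ d - ∏ l, (n + 1 - k l) := by
  classical
  have hne : (Finset.univ.filter (fun p => P p = true)).Nonempty := by
    obtain ⟨p, hp⟩ := hP
    exact ⟨p, by simp [hp]⟩
  have hmin : ∀ l, ∃ p, P p = true ∧ ∀ q, P q = true → (p l : ℕ) ≤ q l := by
    intro l
    obtain ⟨p, hp, hp2⟩ := Finset.exists_min_image _ (fun p => (p l : ℕ)) hne
    exact ⟨p, by simpa using hp, fun q hq => hp2 q (by simpa using hq)⟩
  have hmax : ∀ l, ∃ p, P p = true ∧ ∀ q, P q = true → (q l : ℕ) ≤ p l := by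
    intro l
    obtain ⟨p, hp, hp2⟩ := Finset.exists_max_image _ (fun p => (p l : ℕ)) hne
    exact ⟨p, by simpa using hp, fun q hq => hp2 q (by simpa using hq)⟩
  choose pmin hmin1 hmin2 using hmin
  choose pmax hmax1 hmax2 using hmax
  let lo : Fin d → ℕ := fun l => pmin l l
  let hi : Fin d → ℕ := fun l => pmax l l
  have hlohi : ∀ l, lo l ≤ hi l := fun l => hmax2 l _ (hmin1 l)
  have hhik : ∀ l, hi l < k l := fun l => (pmax l l).2
  have heq := exMinor_eq P lo hi hP (fun l => ⟨pmin l, hmin1 l, rfl⟩) (fun p hp l => hmin2 l p hp)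
    (fun l => ⟨pmax l, hmax1 l, rfl⟩) (fun p hp l => hmax2 l p hp) n
  rw [heq]
  obtain ⟨p0, hp0⟩ := hP
  have hp0Q : (fun l => ((p0 l : ℕ) : ℤ)) ∈ pts P := mem_pts.2 ⟨p0, hp0, rfl⟩
  -- the center, moved into the bounding box
  let c' : Fin d → ℤ := fun l => max (lo l : ℤ) (min (c l : ℤ) (hi l : ℤ))
  let α : Fin d → ℕ := fun l => (c' l - lo l).toNat
  let β : Fin d → ℕ := fun l => (hi l - c' l).toNat
  have hc' : ∀ l, (lo l : ℤ) ≤ c' l ∧ c' l ≤ hi l := by
    intro l
    have := hlohi l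
    refine ⟨le_max_left _ _, max_le (by exact_mod_cast this) (min_le_right _ _)⟩
  have hαβ : ∀ l, α l + β l = hi l - lo l := by
    intro l
    have h1 := hc' l
    have h2 := hlohi l
    show (c' l - lo l).toNat + (hi l - c' l).toNat = hi l - lo l
    omega
  have htrim : Trimmable (pts P) c' σ α β := by
    constructor
    · intro x hx l
      obtain ⟨p, hp, rfl⟩ := mem_pts.1 hx
      have h1 := hmin2 l p hp
      have h2 := hmax2 l p hp
      have h3 := hc' l
      have h4 : ((lo l : ℕ) : ℤ) ≤ ((p l : ℕ) : ℤ) := by exact_mod_cast h1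
      have h5 : ((p l : ℕ) : ℤ) ≤ ((hi l : ℕ) : ℤ) := by exact_mod_cast h2
      show c' l - ((c' l - lo l).toNat : ℕ) ≤ ((p l : ℕ) : ℤ) ∧
        ((p l : ℕ) : ℤ) ≤ c' l + ((hi l - c' l).toNat : ℕ)
      omega
    · intro x hx y hy i hne hside j hij
      obtain ⟨p, hp, rfl⟩ := mem_pts.1 hx
      obtain ⟨q, hq, rfl⟩ := mem_pts.1 hy
      have hne' : p (σ i) ≠ q (σ i) := fun h => hne (by simp only [h])
      have hpq := h p q hp hq i hne' ?_ j hij
      · simp only [hpq]
      · have h1 := hmin2 (σ i) p hp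
        have h2 := hmax2 (σ i) p hp
        have h3 := hmin2 (σ i) q hq
        have h4 := hmax2 (σ i) q hq
        have h5 : ((lo (σ i) : ℕ) : ℤ) ≤ ((p (σ i) : ℕ) : ℤ) := by exact_mod_cast h1
        have h6 : ((p (σ i) : ℕ) : ℤ) ≤ ((hi (σ i) : ℕ) : ℤ) := by exact_mod_cast h2
        have h7 : ((lo (σ i) : ℕ) : ℤ) ≤ ((q (σ i) : ℕ) : ℤ) := by exact_mod_cast h3
        have h8 : ((q (σ i) : ℕ) : ℤ) ≤ ((hi (σ i) : ℕ) : ℤ) := by exact_mod_cast h4
        rw [Fin.lt_def, Fin.lt_def, Fin.lt_def, Fin.lt_def]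
        simp only [c'] at hside
        rcases hside with ⟨h9, h10⟩ | ⟨h9, h10⟩
        · left
          omega
        · right
          omega
  have hup := iter_upper htrim (fun l => n - (lo l + (k l - 1 - hi l)))
  have hlow := iter_lower hp0Q (fun l => hi l - lo l) (fun l => ⟨_, mem_pts.2 ⟨_, hmin1 l, rfl⟩, _,
    mem_pts.2 ⟨_, hmax1 l, rfl⟩, by
      have h2 := hlohi l
      show ((lo l : ℕ) : ℤ) + ((hi l - lo l : ℕ) : ℤ) = ((hi l : ℕ) : ℤ)
      omega, fun x hx => by
      obtain ⟨p, hp, rfl⟩ := mem_pts.1 hx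
      have h1 := hmin2 l p hp
      have h2 := hmax2 l p hp
      show ((pmin l l : ℕ) : ℤ) ≤ ((p l : ℕ) : ℤ) ∧ ((p l : ℕ) : ℤ) ≤ ((pmax l l : ℕ) : ℤ)
      exact ⟨by exact_mod_cast h1, by exact_mod_cast h2⟩⟩)
    (fun l => n - (lo l + (k l - 1 - hi l)))
  have hmm := le_antisymm hup (by simpa only [hαβ] using hlow)
  rw [hmm]
  have h1 : ∏ l, (n - (lo l + (k l - 1 - hi l)) - (α l + β l)) = ∏ l, (n + 1 - k l) := by
    refine Finset.prod_congr rfl (fun l _ => ?_)
    rw [hαβ]
    have := hlohi l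
    have := hhik l
    omega
  rw [h1]
  have h2 : ∏ l, (n - (lo l + (k l - 1 - hi l))) ≤ n ^ d := by
    calc ∏ l, (n - (lo l + (k l - 1 - hi l))) ≤ ∏ _l : Fin d, n :=
          Finset.prod_le_prod' (fun l _ => Nat.sub_le _ _)
      _ = n ^ d := by simp
  have h3 : ∏ l, (n + 1 - k l) ≤ ∏ l, (n - (lo l + (k l - 1 - hi l))) := by
    refine Finset.prod_le_prod' (fun l _ => ?_)
    have := hlohi l
    have := hhik l
    omega
  omega

/-- Patterns whose bounding box has at most one side longer than `3` are removable. -/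
theorem removable_of_thin {d : ℕ} {k : Fin (d + 1) → ℕ} (P : Mat (d + 1) k)
    (hP : ∃ p, P p = true) {l0 : Fin (d + 1)}
    (h : ∀ l, l ≠ l0 → ∀ p q, P p = true → P q = true → (p l : ℕ) ≤ q l + 2) :
    ∃ (c : ∀ l, Fin (k l)) (σ : Equiv.Perm (Fin (d + 1))), Removable P c σ := by
  classical
  have hne : (Finset.univ.filter (fun p => P p = true)).Nonempty := by
    obtain ⟨p, hp⟩ := hP
    exact ⟨p, by simp [hp]⟩
  have hmin : ∀ l, ∃ p, P p = true ∧ ∀ q, P q = true → (p l : ℕ) ≤ q l := by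
    intro l
    obtain ⟨p, hp, hp2⟩ := Finset.exists_min_image _ (fun p => (p l : ℕ)) hne
    exact ⟨p, by simpa using hp, fun q hq => hp2 q (by simpa using hq)⟩
  choose pmin hmin1 hmin2 using hmin
  have hc : ∀ l, ∃ c : Fin (k l), l ≠ l0 →
      ∀ p q, P p = true → P q = true → p l ≠ q l →
        ¬ ((c < p l ∧ c < q l) ∨ (p l < c ∧ q l < c)) := by
    intro l
    by_cases hl : l = l0
    · exact ⟨pmin l l, fun h1 => absurd hl h1⟩
    · by_cases hk : (pmin l l : ℕ) + 1 < k l
      · refine ⟨⟨(pmin l l : ℕ) + 1, hk⟩, fun _ p q hp hq hpq hcon => ?_⟩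
        have h1 := hmin2 l p hp
        have h2 := hmin2 l q hq
        have h3 := h l hl p (pmin l) hp (hmin1 l)
        have h4 := h l hl q (pmin l) hq (hmin1 l)
        rw [Fin.lt_def, Fin.lt_def, Fin.lt_def, Fin.lt_def] at hcon
        simp only at hcon
        apply hpq
        apply Fin.ext
        omega
      · refine ⟨pmin l l, fun _ p q hp hq hpq _ => hpq (Fin.ext ?_)⟩
        have h1 := hmin2 l p hp
        have h2 := hmin2 l q hq
        have h3 := (p l).2
        have h4 := (q l).2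
        omega
  choose c hc using hc
  refine ⟨c, Equiv.swap (Fin.last d) l0, fun p q hp hq i hpq hside j hij => ?_⟩
  exfalso
  refine hc _ ?_ p q hp hq hpq hside
  intro hcon
  have h1 : i = Fin.last d := by
    apply (Equiv.swap (Fin.last d) l0).injective
    rw [hcon, Equiv.swap_apply_left]
  rw [h1] at hij
  exact absurd hij (not_lt.2 (Fin.le_last j))

/-- Let `P` be a 0-1 matrix of dimension `d + 1` with at least one 1 that is removable, or whose
bounding box of ones has at most one side (in the direction `l0`) longer than `3`. Then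
`m(n, P, d + 1) = n ^ (d + 1) - ∏ l, (n - k l + 1)` (a factor being `0` when `k l > n`), and
`m(n, P, d + 1) / n ^ d` converges to `∑ l, (k l - 1)`. -/
theorem result (d : ℕ) (k : Fin (d + 1) → ℕ) (P : Mat (d + 1) k) (hP : ∃ p, P p = true)
    (h : (∃ (c : ∀ l, Fin (k l)) (σ : Equiv.Perm (Fin (d + 1))), Removable P c σ) ∨
      ∃ l0, ∀ l, l ≠ l0 → ∀ p q, P p = true → P q = true → (p l : ℕ) ≤ q l + 2) :
    (∀ n : ℕ, exMinor n P = n ^ (d + 1) - ∏ l, (n + 1 - k l)) ∧
    Tendsto (fun n : ℕ => (exMinor n P : ℝ) / (n : ℝ) ^ d) atTop (𝓝 (∑ l, ((k l : ℝ) - 1))) := by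
  classical
  have h' : ∃ (c : ∀ l, Fin (k l)) (σ : Equiv.Perm (Fin (d + 1))), Removable P c σ := by
    rcases h with h | ⟨l0, h⟩
    · exact h
    · exact removable_of_thin P hP h
  obtain ⟨c, σ, hc⟩ := h'
  have hval := value P hP hc
  refine ⟨hval, ?_⟩
  obtain ⟨p0, -⟩ := hP
  have hk : ∀ l, 1 ≤ k l := fun l => by
    have := (p0 l).2
    omega
  refine (prod_lim Finset.univ (fun l => (k l : ℝ) - 1)).2.congr' ?_
  filter_upwards [eventually_ge_atTop (∑ l, k l + 1)] with n hn
  have hkn : ∀ l, k l ≤ n := fun l => by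
    have : k l ≤ ∑ l, k l := Finset.single_le_sum (fun _ _ => Nat.zero_le _) (Finset.mem_univ l)
    omega
  have hn' : (n : ℝ) ≠ 0 := by
    have : (0 : ℝ) < n := by
      have : 0 < n := by omega
      exact_mod_cast this
    exact this.ne'
  rw [hval n]
  have h1 : ∏ l, (n + 1 - k l) ≤ n ^ (d + 1) := by
    calc ∏ l, (n + 1 - k l) ≤ ∏ _l : Fin (d + 1), n :=
          Finset.prod_le_prod' (fun l _ => by have := hk l; omega)
      _ = n ^ (d + 1) := by simp
  rw [Nat.cast_sub h1, Nat.cast_pow, Nat.cast_prod]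
  have h2 : ∏ l, (((n + 1 - k l : ℕ)) : ℝ) = (n : ℝ) ^ (d + 1) *
      ∏ l : Fin (d + 1), (1 - ((k l : ℝ) - 1) / (n : ℝ)) := by
    have h3 : (n : ℝ) ^ (d + 1) = ∏ _l : Fin (d + 1), (n : ℝ) := by simp
    rw [h3, ← Finset.prod_mul_distrib]
    refine Finset.prod_congr rfl (fun l _ => ?_)
    have := hkn l
    rw [Nat.cast_sub (by omega)]
    push_cast
    field_simp
    ring
  rw [h2]
  field_simp
  ring

end Pool.Agent.Results.MP_b1c185_co.ExactValues
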