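import Pool.Agent.Lib.MP_b1c185_co.Latin

/-!
A criterion for convergence in every dimension, by composition with Latin hypercubes.
-/

namespace Pool.Agent.Results.MP_b1c185_co.LatinCriterion

open Filter Topology Pool.Agent.Lib.MPb1c185

/-- `P` is indecomposable with respect to a set `B` of index vectors in `{0, …, s-1}^D`: every
labelling `lam` of the ones of `P` by elements of `B` that is weakly monotone in each coordinate
(if `p l < q l` then `lam p l ≤ lam q l`) is constant. -/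
def Indecomposable {D : ℕ} {k : Fin D → ℕ} (P : Mat D k) {s : ℕ} (B : Finset (Fin D → Fin s)) :
    Prop :=
  ∀ lam : (∀ l, Fin (k l)) → (Fin D → Fin s), (∀ p, P p = true → lam p ∈ B) →
    (∀ p q, P p = true → P q = true → ∀ l, p l < q l → lam p l ≤ lam q l) →
    ∀ p q, P p = true → P q = true → lam p = lam q

theorem indec_of {D : ℕ} {k : Fin D → ℕ} {P : Mat D k} {s : ℕ} (hs : 0 < s)
    {B : Finset (Fin D → Fin s)} (h : Indecomposable P B) :
    Indec (pts P) (B.image (fun b l => ((b l : Fin s) : ℕ))) := by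
  classical
  intro lam hlam hweak
  have key : ∀ p : ∀ l, Fin (k l), ∃ b : Fin D → Fin s, P p = true →
      b ∈ B ∧ (fun l => ((b l : Fin s) : ℕ)) = lam (fun l => ((p l : ℕ) : ℤ)) := by
    intro p
    by_cases hp : P p = true
    · obtain ⟨b, hb, hb2⟩ := Finset.mem_image.1 (hlam _ (mem_pts.2 ⟨p, hp, rfl⟩))
      exact ⟨b, fun _ => ⟨hb, hb2⟩⟩
    · exact ⟨fun _ => ⟨0, hs⟩, fun h2 => absurd h2 hp⟩
  choose f hf using key
  have hconst := h f (fun p hp => (hf p hp).1) (fun p q hp hq l hlt => by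
    rw [Fin.le_def]
    have e1 := congrFun (hf p hp).2 l
    have e2 := congrFun (hf q hq).2 l
    rw [e1, e2]
    apply hweak _ (mem_pts.2 ⟨p, hp, rfl⟩) _ (mem_pts.2 ⟨q, hq, rfl⟩)
    exact_mod_cast hlt)
  intro x hx y hy
  obtain ⟨p, hp, rfl⟩ := mem_pts.1 hx
  obtain ⟨q, hq, rfl⟩ := mem_pts.1 hy
  rw [← (hf p hp).2, ← (hf q hq).2, hconst p q hp hq]

/-- Let `P` be a `(d + 1)`-dimensional 0-1 matrix with at least one `1`. Suppose that for two
multiplicatively independent integers `s, t ≥ 2` there are sets `B ⊆ {0, …, s-1}^(d+1)` and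
`B' ⊆ {0, …, t-1}^(d+1)` with `s ^ d` and `t ^ d` elements such that `P` is indecomposable with
respect to both. Then `m(n, P, d + 1) / n ^ d` converges. -/
theorem result {d : ℕ} {k : Fin (d + 1) → ℕ} (P : Mat (d + 1) k) (hP : ∃ p, P p = true)
    {s t : ℕ} (hs : 2 ≤ s) (ht : 2 ≤ t) (hst : ∀ a b : ℕ, 1 ≤ b → t ^ b ≠ s ^ a)
    (B : Finset (Fin (d + 1) → Fin s)) (B' : Finset (Fin (d + 1) → Fin t))
    (hB : B.card = s ^ d) (hB' : B'.card = t ^ d)
    (h : Indecomposable P B) (h' : Indecomposable P B') :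
    ∃ L : ℝ, Tendsto (fun n : ℕ => (exMinor n P : ℝ) / (n : ℝ) ^ d) atTop (𝓝 L) := by
  classical
  have hQ : (pts P).Nonempty := by
    obtain ⟨p, hp⟩ := hP
    exact ⟨_, mem_pts.2 ⟨p, hp, rfl⟩⟩
  have hinj : ∀ r : ℕ, Function.Injective
      (fun (b : Fin (d + 1) → Fin r) (l : Fin (d + 1)) => ((b l : Fin r) : ℕ)) := by
    intro r b b' hbb
    funext l
    exact Fin.ext (congrFun hbb l)
  apply conv_transfer _ hP
  refine conv_of_indec hQ hs ht hst (B := B.image (fun b l => ((b l : Fin s) : ℕ)))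
    (B' := B'.image (fun b l => ((b l : Fin t) : ℕ))) ?_ ?_ ?_ ?_ (indec_of (by omega) h)
    (indec_of (by omega) h')
  · intro b hb l
    obtain ⟨c, -, rfl⟩ := Finset.mem_image.1 hb
    exact (c l).2
  · rw [Finset.card_image_of_injective _ (hinj s), hB]
  · intro b hb l
    obtain ⟨c, -, rfl⟩ := Finset.mem_image.1 hb
    exact (c l).2
  · rw [Finset.card_image_of_injective _ (hinj t), hB']

end Pool.Agent.Results.MP_b1c185_co.LatinCriterion
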