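import Pool.Agent.Lib.MP_b1c185_co.TwoDim

/-!
For every two-dimensional 0-1 matrix `P` such that at most two corners of the bounding box of its
ones are ones, `m(n, P, 2) / n` converges.
-/

namespace Pool.Agent.Results.MP_b1c185_co.PlanarTwoCorners

open Filter Topology Pool.Agent.Lib.MPb1c185

/-- The corner ones of `P`: the index vectors `p` of ones of `P` such that, in each direction `l`,
`p l` is the smallest or the largest among the `l`-th indices of the ones of `P`. In other words,
the ones in the corners of the smallest box containing all ones of `P`. -/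
def cornerOnes {d : ℕ} {k : Fin d → ℕ} (P : Mat d k) : Finset (∀ l, Fin (k l)) :=
  Finset.univ.filter (fun p => P p = true ∧
    ∀ l, (∀ q, P q = true → p l ≤ q l) ∨ (∀ q, P q = true → q l ≤ p l))

theorem corners_card {d : ℕ} {k : Fin d → ℕ} (P : Mat d k) :
    (corners (pts P)).card ≤ (cornerOnes P).card := by
  classical
  have hsub : corners (pts P) ⊆ (cornerOnes P).image (fun p l => ((p l : ℕ) : ℤ)) := by
    intro x hx
    rw [mem_corners] at hx
    obtain ⟨p, hp, rfl⟩ := mem_pts.1 hx.1
    refine Finset.mem_image.2 ⟨p, ?_, rfl⟩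
    refine Finset.mem_filter.2 ⟨Finset.mem_univ _, hp, fun l => ?_⟩
    rcases hx.2 l with h | h
    · left
      intro q hq
      have : ((p l : ℕ) : ℤ) ≤ ((q l : ℕ) : ℤ) := h _ (mem_pts.2 ⟨q, hq, rfl⟩)
      rw [Fin.le_def]
      exact_mod_cast this
    · right
      intro q hq
      have : ((q l : ℕ) : ℤ) ≤ ((p l : ℕ) : ℤ) := h _ (mem_pts.2 ⟨q, hq, rfl⟩)
      rw [Fin.le_def]
      exact_mod_cast this
  exact (Finset.card_le_card hsub).trans Finset.card_image_le

/-- A matrix without ones is an interval minor of every large matrix. -/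
theorem exMinor_zero {d : ℕ} {k : Fin d → ℕ} (P : Mat d k) (hP : ∀ p, P p = false) (n : ℕ)
    (hn : ∀ l, k l ≤ n) : exMinor n P = 0 := by
  have hempty : {N : ℕ | ∃ A : Mat d (fun _ => n), ¬ IntervalMinor A P ∧ ones A = N} = ∅ := by
    ext N
    simp only [Set.mem_ofPred_eq, Set.mem_empty_iff_false, iff_false]
    rintro ⟨A, hA, -⟩
    apply hA
    refine ⟨fun _ => n, A, ⟨fun _ => id, fun _ => monotone_id, fun _ => Function.surjective_id,
      fun y => ?_⟩, fun l => Fin.castLE (hn l), fun l => Fin.strictMono_castLE (hn l),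
      fun p hp => ?_⟩
    · constructor
      · intro h
        exact ⟨y, h, fun l => rfl⟩
      · rintro ⟨x, hx, hxy⟩
        have : x = y := funext hxy
        rwa [← this]
    · rw [hP p] at hp
      exact absurd hp Bool.false_ne_true
  unfold exMinor
  rw [hempty]
  simp

/-- For every two-dimensional 0-1 matrix `P` with at most two ones in the corners of its bounding
box, the sequence `m(n, P, 2) / n` converges. -/
theorem result (k : Fin 2 → ℕ) (P : Mat 2 k) (hP : (cornerOnes P).card ≤ 2) :
    ∃ L : ℝ, Tendsto (fun n : ℕ => (exMinor n P : ℝ) / n) atTop (𝓝 L) := by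
  by_cases h1 : ∃ p, P p = true
  · have hQ : (pts P).Nonempty := by
      obtain ⟨p, hp⟩ := h1
      exact ⟨_, mem_pts.2 ⟨p, hp, rfl⟩⟩
    have hc := conv_two hQ ((corners_card P).trans hP)
    have := conv_transfer (d := 1) P h1 (by simpa [Conv] using hc)
    simpa using this
  · push Not at h1
    refine ⟨0, tendsto_const_nhds.congr' ?_⟩
    filter_upwards [eventually_ge_atTop (k 0 + k 1)] with n hn
    rw [exMinor_zero P (fun p => by simpa using h1 p) n (fun l => by
      rcases fin2_cases l with rfl | rfl <;> omega)]
    simp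

end Pool.Agent.Results.MP_b1c185_co.PlanarTwoCorners
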